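import Pool.Agent.Helper36.CV.StmtsW

set_option autoImplicit false

namespace Pool.Agent.Helper36.CV

open Complex

lemma d8_gg : gam ^ 2 = 1 - gam := by
  unfold gam
  have h := Real.sq_sqrt (show (0 : ℝ) ≤ 5 by norm_num)
  linear_combination h / 4

lemma d8_phi : phi = 1 + gam := by unfold phi gam; ring

lemma d8_q : Real.sqrt 5 = 1 + 2 * gam := by unfold gam; ring

lemma d8_qlo : (2236 / 1000 : ℝ) < Real.sqrt 5 := by
  rw [Real.lt_sqrt (by norm_num)]; norm_num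

lemma d8_qhi : Real.sqrt 5 < (22362 / 10000 : ℝ) := by
  rw [Real.sqrt_lt' (by norm_num)]; norm_num

lemma d8_glo : (618 / 1000 : ℝ) < gam := by
  have := d8_qlo; unfold gam; linarith

lemma d8_ghi : gam < (6181 / 10000 : ℝ) := by
  have := d8_qhi; unfold gam; linarith

lemma d8_lo (q x c s : ℝ) (hq : 0 < q) (hq' : q ≤ 22362 / 10000) (hs : 0 < s) (hc : 0 ≤ c)
    (h : 22362 / 10000 * (c * s) ≤ q * |x|) : c * s ≤ |x| := by
  have h1 : 0 ≤ c * s := mul_nonneg hc hs.le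
  have h2 : q * (c * s) ≤ 22362 / 10000 * (c * s) := mul_le_mul_of_nonneg_right hq' h1
  exact le_of_mul_le_mul_left (h2.trans h) hq

lemma d8_hi (q x c s : ℝ) (hq' : 2236 / 1000 ≤ q) (hs : 0 < s) (hc : 0 ≤ c)
    (h : q * |x| ≤ 2236 / 1000 * (c * s)) : |x| ≤ c * s := by
  have h1 : 0 ≤ c * s := mul_nonneg hc hs.le
  have h2 : 2236 / 1000 * (c * s) ≤ q * (c * s) := mul_le_mul_of_nonneg_right hq' h1
  exact le_of_mul_le_mul_left (h.trans h2) (by linarith)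

lemma d8_A (γ φ q a b g s D R0 R1 R2 : ℝ) (hγ : γ ^ 2 = 1 - γ) (hφ : φ = 1 + γ)
    (hq : q = 1 + 2 * γ) (hγ1 : 618 / 1000 < γ) (hγ2 : γ < 6181 / 10000) (hs : 0 < s)
    (hs' : s ≤ 1 / 10 ^ 5) (hg : s ≤ g) (hg' : g < φ * s) (ha : |a| ≤ 943 / 100 * s ^ 3)
    (hb : 702 / 100 * g ≤ |b|) (hb' : |b| ≤ 703 / 100 * g)
    (h0 : q * R0 = a - b) (h1 : q * R1 = φ * a + γ * b)
    (h2 : q * R2 = φ ^ 2 * a - γ ^ 2 * b + q * D) (hD : |D| ≤ 101 / 100 * s ^ 2) :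
    (3 * s ≤ |R0| ∧ 19 / 10 * s ≤ |R1| ∧ 115 / 100 * s ≤ |R2|) ∧
    (|R0| ≤ 6 * s ∧ |R1| ≤ 6 * s ∧ |R2| ≤ 6 * s) := by
  have hq0 : 0 < q := by linarith
  have hq1 : q ≤ 22362 / 10000 := by linarith
  have hq2 : 2236 / 1000 ≤ q := by linarith
  have hφ2 : φ ^ 2 = 2 + γ := by rw [hφ]; linear_combination hγ
  have hss : s ^ 2 ≤ s / 10 ^ 5 := by nlinarith
  have hs3 : s ^ 3 ≤ s / 10 ^ 10 := by nlinarith
  have hs20 : 0 ≤ s ^ 2 := by positivity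
  have hs30 : 0 ≤ s ^ 3 := by positivity
  have hgs : g ≤ 16181 / 10000 * s := by nlinarith
  have hγ0 : 0 < γ := by linarith
  have ha' : |a| ≤ s / 10 ^ 8 := by
    refine ha.trans ?_
    have : (943 / 100 : ℝ) * s ^ 3 ≤ 943 / 100 * (s / 10 ^ 10) := by
      exact mul_le_mul_of_nonneg_left hs3 (by norm_num)
    refine this.trans ?_
    nlinarith
  have hD' : |D| ≤ s / 10 ^ 4 := by
    refine hD.trans ?_
    nlinarith
  have e0 : q * |R0| = |a - b| := by rw [← h0, abs_mul, abs_of_pos hq0]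
  have e1 : q * |R1| = |φ * a + γ * b| := by rw [← h1, abs_mul, abs_of_pos hq0]
  have e2 : q * |R2| = |φ ^ 2 * a - γ ^ 2 * b + q * D| := by rw [← h2, abs_mul, abs_of_pos hq0]
  have hγb : |γ * b| = γ * |b| := by rw [abs_mul, abs_of_pos hγ0]
  have hφa : |φ * a| = φ * |a| := by rw [abs_mul, abs_of_pos (by linarith : 0 < φ)]
  have hγb2 : |γ ^ 2 * b| = (1 - γ) * |b| := by
    rw [abs_mul, abs_of_pos (by positivity : 0 < γ ^ 2), hγ]
  have hφa2 : |φ ^ 2 * a| = (2 + γ) * |a| := by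
    rw [abs_mul, hφ2, abs_of_pos (by linarith)]
  have hqD : |q * D| = q * |D| := by rw [abs_mul, abs_of_pos hq0]
  have ha0 : 0 ≤ |a| := abs_nonneg _
  have hb0 : 0 ≤ |b| := abs_nonneg _
  have hD0 : 0 ≤ |D| := abs_nonneg _
  have hφal : φ * |a| ≤ s / 10 ^ 7 := by
    have : φ * |a| ≤ 2 * (s / 10 ^ 8) := mul_le_mul (by linarith) ha' ha0 (by norm_num)
    linarith
  have hφal2 : (2 + γ) * |a| ≤ s / 10 ^ 7 := by
    have : (2 + γ) * |a| ≤ 3 * (s / 10 ^ 8) := mul_le_mul (by linarith) ha' ha0 (by norm_num)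
    linarith
  have hqDl : q * |D| ≤ 3 * (s / 10 ^ 4) := mul_le_mul (by linarith) hD' hD0 (by norm_num)
  have hgb1 : 618 / 1000 * (702 / 100 * s) ≤ γ * |b| :=
    mul_le_mul hγ1.le (by linarith) (by positivity) hγ0.le
  have hgb2 : γ * |b| ≤ 6181 / 10000 * (703 / 100 * (16181 / 10000 * s)) :=
    mul_le_mul hγ2.le (by linarith) hb0 (by norm_num)
  have hgb3 : 3819 / 10000 * (702 / 100 * s) ≤ (1 - γ) * |b| :=
    mul_le_mul (by linarith) (by linarith) (by positivity) (by linarith)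
  have hgb4 : (1 - γ) * |b| ≤ 382 / 1000 * (703 / 100 * (16181 / 10000 * s)) :=
    mul_le_mul (by linarith) (by linarith) hb0 (by norm_num)
  refine ⟨⟨?_, ?_, ?_⟩, ?_, ?_, ?_⟩
  · apply d8_lo q R0 3 s hq0 hq1 hs (by norm_num)
    rw [e0]
    have := abs_sub_abs_le_abs_sub b a
    rw [abs_sub_comm b a] at this
    linarith
  · apply d8_lo q R1 (19 / 10) s hq0 hq1 hs (by norm_num)
    rw [e1]
    have := abs_sub_abs_le_abs_sub (γ * b) (-(φ * a))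
    rw [abs_neg, hγb, hφa, sub_neg_eq_add, add_comm (γ * b) (φ * a)] at this
    linarith
  · apply d8_lo q R2 (115 / 100) s hq0 hq1 hs (by norm_num)
    rw [e2]
    have h3 := abs_sub_abs_le_abs_sub (γ ^ 2 * b) (φ ^ 2 * a + q * D)
    have h4 := abs_add_le (φ ^ 2 * a) (q * D)
    have h5 : |γ ^ 2 * b - (φ ^ 2 * a + q * D)| = |φ ^ 2 * a - γ ^ 2 * b + q * D| := by
      rw [abs_sub_comm]; congr 1; ring
    rw [h5, hγb2] at h3
    rw [hφa2, hqD] at h4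
    linarith
  · apply d8_hi q R0 6 s hq2 hs (by norm_num)
    rw [e0]
    have := abs_sub a b
    linarith
  · apply d8_hi q R1 6 s hq2 hs (by norm_num)
    rw [e1]
    have := abs_add_le (φ * a) (γ * b)
    rw [hφa, hγb] at this
    linarith
  · apply d8_hi q R2 6 s hq2 hs (by norm_num)
    rw [e2]
    have h3 := abs_add_le (φ ^ 2 * a - γ ^ 2 * b) (q * D)
    have h4 := abs_sub (φ ^ 2 * a) (γ ^ 2 * b)
    rw [hφa2, hγb2] at h4
    rw [hqD] at h3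
    linarith

lemma d8_D (D s S0 S1 S2 : ℝ) (hs : 0 < s) (hs' : s ≤ 1 / 10 ^ 5) (h0 : 19 / 10 * s ≤ S0)
    (h1 : 11 / 10 * s ≤ S1) (h2 : 7 / 10 * s ≤ S2)
    (h : |D| * (S0 - 51 / 100 * s ^ 2) * (8 * S1 * S2) ≤ 101 / 100 * s ^ 8) :
    |D| ≤ s ^ 5 / 10 := by
  have hD : 0 ≤ |D| := abs_nonneg _
  have hss : s ^ 2 ≤ s / 10 ^ 5 := by nlinarith
  have a0 : 18 / 10 * s ≤ S0 - 51 / 100 * s ^ 2 := by linarith
  have a1 : 8 * (11 / 10 * s) * (7 / 10 * s) ≤ 8 * S1 * S2 := by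
    apply mul_le_mul (by linarith) h2 (by positivity) (by linarith)
  have a2 : (18 / 10 * s) * (8 * (11 / 10 * s) * (7 / 10 * s)) ≤
      (S0 - 51 / 100 * s ^ 2) * (8 * S1 * S2) :=
    mul_le_mul a0 a1 (by positivity) (le_trans (by positivity) a0)
  have a3 : |D| * ((18 / 10 * s) * (8 * (11 / 10 * s) * (7 / 10 * s))) ≤
      |D| * ((S0 - 51 / 100 * s ^ 2) * (8 * S1 * S2)) := mul_le_mul_of_nonneg_left a2 hD
  have a4 : |D| * (11 * s ^ 3) ≤ (s ^ 5 / 10) * (11 * s ^ 3) := by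
    have e1 : |D| * (11 * s ^ 3) ≤ |D| * ((18 / 10 * s) * (8 * (11 / 10 * s) * (7 / 10 * s))) := by
      apply mul_le_mul_of_nonneg_left _ hD
      have : 0 < s ^ 3 := by positivity
      nlinarith
    have e2 : |D| * ((S0 - 51 / 100 * s ^ 2) * (8 * S1 * S2)) =
      |D| * (S0 - 51 / 100 * s ^ 2) * (8 * S1 * S2) := by ring
    have e3 : (101 / 100 : ℝ) * s ^ 8 ≤ (s ^ 5 / 10) * (11 * s ^ 3) := by
      have : 0 < s ^ 8 := by positivity
      nlinarith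
    linarith
  exact le_of_mul_le_mul_right a4 (by positivity)

lemma d8_alg (γ φ q p a b g s D R0 R1 R2 y0 y1 y2 c : ℝ) (hγ : γ ^ 2 = 1 - γ) (hφ : φ = 1 + γ)
    (hq : q = 1 + 2 * γ) (hγ1 : 618 / 1000 < γ) (hγ2 : γ < 6181 / 10000) (hs : 0 < s)
    (hs' : s ≤ 1 / 10 ^ 5) (hg : s ≤ g) (hg' : g < φ * s) (ha : |a| ≤ 943 / 100 * s ^ 3)
    (hb' : |b| ≤ 703 / 100 * g) (hp : 986 / 100 ≤ p ^ 2)
    (hb2 : |b ^ 2 - 5 * p ^ 2 * g ^ 2| ≤ 5 * p ^ 2 * g ^ 2 * (s ^ 4 * (2 * c + 1 / 1000)))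
    (h0 : q * R0 = a - b) (h1 : q * R1 = φ * a + γ * b)
    (h2 : q * R2 = φ ^ 2 * a - γ ^ 2 * b + q * D) (hD : |D| ≤ s ^ 5 / 10)
    (hy0 : |y0 - R0 ^ 2 / 2| ≤ s ^ 6 / 10 ^ 5) (hy1 : |y1 - R1 ^ 2 / 2| ≤ s ^ 6 / 10 ^ 5)
    (hy2 : |y2 - R2 ^ 2 / 2| ≤ s ^ 6 / 10 ^ 5) :
    |(φ ^ 2 * y0 + φ * y1 - y2) / (5 * γ) - p ^ 2 / 2 * g ^ 2| ≤
      g ^ 2 * (p ^ 2 / 2) * ((2 * c + 1 / 100) * s ^ 4) ∧
    |(y2 - 3 * y1 + y0) / 5| ≤ 30 * s ^ 4 ∧
    |(y2 + γ * y1 - γ ^ 2 * y0) / (5 * φ)| ≤ 20 * s ^ 6 ∧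
    (a = 0 → |(y2 - 3 * y1 + y0) / 5| ≤ s ^ 6 / 10) := by
  have hγ0 : 0 < γ := by linarith
  have hφ0 : 0 < φ := by linarith
  have hg0 : 0 < g := by linarith
  have hq0 : 0 < q := by linarith
  have hqq : q ^ 2 = 5 := by rw [hq]; linear_combination 4 * hγ
  have hφ2 : φ ^ 2 = 2 + γ := by rw [hφ]; linear_combination hγ
  obtain ⟨z, hz⟩ : ∃ z, z = R2 - D := ⟨_, rfl⟩
  have hz1 : q * z = φ ^ 2 * a - γ ^ 2 * b := by rw [hz]; linarith
  obtain ⟨η, hη⟩ : ∃ η, η = z * D + D ^ 2 / 2 := ⟨_, rfl⟩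
  obtain ⟨e0, he0⟩ : ∃ e, e = y0 - R0 ^ 2 / 2 := ⟨_, rfl⟩
  obtain ⟨e1, he1⟩ : ∃ e, e = y1 - R1 ^ 2 / 2 := ⟨_, rfl⟩
  obtain ⟨e2, he2⟩ : ∃ e, e = y2 - R2 ^ 2 / 2 := ⟨_, rfl⟩
  rw [← he0] at hy0
  rw [← he1] at hy1
  rw [← he2] at hy2
  have hR0 : R0 ^ 2 = (a - b) ^ 2 / 5 := by
    rw [← h0, mul_pow, hqq]; ring
  have hR1 : R1 ^ 2 = (φ * a + γ * b) ^ 2 / 5 := by
    rw [← h1, mul_pow, hqq]; ring
  have hZ : z ^ 2 = (φ ^ 2 * a - γ ^ 2 * b) ^ 2 / 5 := by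
    rw [← hz1, mul_pow, hqq]; ring
  have Y0 : y0 = (a - b) ^ 2 / 10 + e0 := by rw [he0, hR0]; ring
  have Y1 : y1 = (φ * a + γ * b) ^ 2 / 10 + e1 := by rw [he1, hR1]; ring
  have Y2 : y2 = (φ ^ 2 * a - γ ^ 2 * b) ^ 2 / 10 + η + e2 := by
    have : R2 ^ 2 = z ^ 2 + 2 * z * D + D ^ 2 := by rw [hz]; ring
    rw [he2, this, hZ, hη]; ring
  -- bounds
  have hss : s ^ 2 ≤ s / 10 ^ 5 := by nlinarith
  have hs3 : s ^ 3 ≤ s / 10 ^ 10 := by nlinarith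
  have hgs : g ≤ 16181 / 10000 * s := by nlinarith
  have ha0 : 0 ≤ |a| := abs_nonneg _
  have hb0 : 0 ≤ |b| := abs_nonneg _
  have hD0 : 0 ≤ |D| := abs_nonneg _
  have hzb : |z| ≤ 121 / 100 * g := by
    have e3 : q * |z| = |φ ^ 2 * a - γ ^ 2 * b| := by rw [← hz1, abs_mul, abs_of_pos hq0]
    have h4 := abs_sub (φ ^ 2 * a) (γ ^ 2 * b)
    have hγb2 : |γ ^ 2 * b| = (1 - γ) * |b| := by
      rw [abs_mul, abs_of_pos (by positivity : 0 < γ ^ 2), hγ]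
    have hφa2 : |φ ^ 2 * a| = (2 + γ) * |a| := by
      rw [abs_mul, hφ2, abs_of_pos (by linarith)]
    rw [hγb2, hφa2, ← e3] at h4
    have ha' : |a| ≤ 943 / 100 * (s / 10 ^ 10) := by
      refine ha.trans (mul_le_mul_of_nonneg_left hs3 (by norm_num))
    have h5 : (2 + γ) * |a| ≤ 3 * (943 / 100 * (s / 10 ^ 10)) :=
      mul_le_mul (by linarith) ha' ha0 (by norm_num)
    have h6 : (1 - γ) * |b| ≤ 382 / 1000 * (703 / 100 * g) :=
      mul_le_mul (by linarith) hb' hb0 (by norm_num)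
    have h7 : 2236 / 1000 * |z| ≤ q * |z| :=
      mul_le_mul_of_nonneg_right (by linarith) (abs_nonneg _)
    linarith
  have hηb : |η| ≤ 122 / 1000 * (g * s ^ 5) := by
    rw [hη]
    have h4 := abs_add_le (z * D) (D ^ 2 / 2)
    have h5 : |z * D| ≤ 121 / 100 * g * (s ^ 5 / 10) := by
      rw [abs_mul]; exact mul_le_mul hzb hD hD0 (by positivity)
    have h6 : |D ^ 2 / 2| ≤ 1 / 1000 * (g * s ^ 5) := by
      rw [abs_of_nonneg (by positivity)]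
      have h7 : D ^ 2 = |D| * |D| := by rw [← sq, sq_abs]
      have h8 : |D| * |D| ≤ (s ^ 5 / 10) * (s ^ 5 / 10) := mul_le_mul hD hD hD0 (by positivity)
      have h9 : s ^ 5 ≤ g := by
        have : s ^ 5 ≤ s := by
          have : s ^ 5 ≤ s ^ 1 := pow_le_pow_of_le_one hs.le (by linarith [hs', (by norm_num : (1:ℝ) / 10 ^ 5 ≤ 1)]) (by norm_num)
          simpa using this
        linarith
      have h10 : s ^ 5 / 10 ≤ 1 / 100 * g := by
        have : s ^ 5 ≤ g / 10 ^ 4 := by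
          have e5 : s ^ 5 = s ^ 4 * s := by ring
          have e6 : s ^ 4 ≤ 1 / 10 ^ 4 := by
            have : s ^ 4 ≤ (1 / 10 ^ 5) ^ 4 := pow_le_pow_left₀ hs.le hs' 4
            refine this.trans (by norm_num)
          rw [e5]
          have : s ^ 4 * s ≤ 1 / 10 ^ 4 * g := mul_le_mul e6 hg hs.le (by norm_num)
          linarith
        linarith
      have h11 : (s ^ 5 / 10) * (s ^ 5 / 10) ≤ (1 / 100 * g) * (s ^ 5 / 10) :=
        mul_le_mul_of_nonneg_right h10 (by positivity)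
      rw [h7]
      have h12 : 0 < g * s ^ 5 := by positivity
      linarith
    linarith
  have hgs5 : g * s ^ 5 ≤ g ^ 2 * s ^ 4 := by
    have : g * s ^ 5 = (g * s ^ 4) * s := by ring
    have h3 : g ^ 2 * s ^ 4 = (g * s ^ 4) * g := by ring
    rw [this, h3]
    exact mul_le_mul_of_nonneg_left hg (by positivity)
  have hs6 : s ^ 6 ≤ g ^ 2 * s ^ 4 := by
    have h3 : s ^ 2 ≤ g ^ 2 := pow_le_pow_left₀ hs.le hg 2
    have : s ^ 6 = s ^ 2 * s ^ 4 := by ring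
    rw [this]
    exact mul_le_mul_of_nonneg_right h3 (by positivity)
  have hgs6 : g * s ^ 5 ≤ 17 / 10 * s ^ 6 := by
    have h3 : g * s ^ 5 ≤ (16181 / 10000 * s) * s ^ 5 := mul_le_mul_of_nonneg_right hgs (by positivity)
    have h4 : 0 < s ^ 6 := by positivity
    have h5 : (16181 / 10000 * s) * s ^ 5 = 16181 / 10000 * s ^ 6 := by ring
    linarith
  have hs60 : 0 < s ^ 6 := by positivity
  have hs64 : s ^ 6 ≤ s ^ 4 / 10 ^ 5 := by
    have h3 : s ^ 6 = s ^ 2 * s ^ 4 := by ring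
    have h4 : s ^ 2 ≤ 1 / 10 ^ 5 := by
      have : s ^ 2 ≤ (1 / 10 ^ 5) ^ 2 := pow_le_pow_left₀ hs.le hs' 2
      refine this.trans (by norm_num)
    rw [h3]
    have : s ^ 2 * s ^ 4 ≤ 1 / 10 ^ 5 * s ^ 4 := mul_le_mul_of_nonneg_right h4 (by positivity)
    linarith
  -- identities
  have IQ : (φ ^ 2 * y0 + φ * y1 - y2) / (5 * γ) - p ^ 2 / 2 * g ^ 2 =
      (b ^ 2 - 5 * p ^ 2 * g ^ 2) / 10 + (φ ^ 2 * e0 + φ * e1 - η - e2) / (5 * γ) := by
    have h3 : φ ^ 2 * (a - b) ^ 2 + φ * (φ * a + γ * b) ^ 2 - (φ ^ 2 * a - γ ^ 2 * b) ^ 2 =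
        5 * γ * b ^ 2 := by
      rw [hφ]
      linear_combination (-(1 + γ) ^ 2 * a ^ 2 + 2 * (1 + γ) ^ 2 * a * b +
        (-γ ^ 2 + 2 * γ - 1) * b ^ 2) * hγ
    rw [Y0, Y1, Y2]
    have h4 : (φ ^ 2 * ((a - b) ^ 2 / 10 + e0) + φ * ((φ * a + γ * b) ^ 2 / 10 + e1) -
        ((φ ^ 2 * a - γ ^ 2 * b) ^ 2 / 10 + η + e2)) =
        (5 * γ) * (b ^ 2 / 10) + (φ ^ 2 * e0 + φ * e1 - η - e2) := by
      linear_combination h3 / 10
    rw [h4, add_div, mul_div_cancel_left₀ _ (by positivity : (5 * γ) ≠ 0)]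
    ring
  have IR : (y2 - 3 * y1 + y0) / 5 = -(a * b) / 5 + (η + e2 - 3 * e1 + e0) / 5 := by
    have h3 : (φ ^ 2 * a - γ ^ 2 * b) ^ 2 - 3 * (φ * a + γ * b) ^ 2 + (a - b) ^ 2 =
        -10 * (a * b) := by
      rw [hφ]
      linear_combination (((1 + γ) ^ 2 + (1 + γ) - 1) * a ^ 2 +
        (-10 - 2 * (γ ^ 2 + γ - 1)) * (a * b) + (γ ^ 2 - γ - 1) * b ^ 2) * hγ
    rw [Y0, Y1, Y2]
    linear_combination h3 / 50
  have IP : (y2 + γ * y1 - γ ^ 2 * y0) / (5 * φ) =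
      a ^ 2 / 10 + (η + e2 + γ * e1 - γ ^ 2 * e0) / (5 * φ) := by
    have h3 : (φ ^ 2 * a - γ ^ 2 * b) ^ 2 + γ * (φ * a + γ * b) ^ 2 - γ ^ 2 * (a - b) ^ 2 =
        5 * φ * a ^ 2 := by
      rw [hφ]
      linear_combination ((γ ^ 2 + 4 * γ + 4) * a ^ 2 +
        (-2 - 2 * (γ ^ 2 + γ - 1) + 2 * γ) * (a * b) + γ ^ 2 * b ^ 2) * hγ
    rw [Y0, Y1, Y2]
    have h4 : ((φ ^ 2 * a - γ ^ 2 * b) ^ 2 / 10 + η + e2) + γ * ((φ * a + γ * b) ^ 2 / 10 + e1) -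
        γ ^ 2 * ((a - b) ^ 2 / 10 + e0) =
        (5 * φ) * (a ^ 2 / 10) + (η + e2 + γ * e1 - γ ^ 2 * e0) := by
      linear_combination h3 / 10
    rw [h4, add_div, mul_div_cancel_left₀ _ (by positivity : (5 * φ) ≠ 0)]
  have hη1 := abs_le.1 hηb
  have hE0 := abs_le.1 hy0
  have hE1 := abs_le.1 hy1
  have hE2 := abs_le.1 hy2
  refine ⟨?_, ?_, ?_, ?_⟩
  · rw [IQ]
    have h3 : |(φ ^ 2 * e0 + φ * e1 - η - e2) / (5 * γ)| ≤ 4 / 100 * (g ^ 2 * s ^ 4) := by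
      rw [abs_div, abs_of_pos (by positivity : 0 < 5 * γ), div_le_iff₀ (by positivity)]
      have h4 : |φ ^ 2 * e0 + φ * e1 - η - e2| ≤ 1221 / 10000 * (g ^ 2 * s ^ 4) := by
        have f0 : |φ ^ 2 * e0| ≤ 3 * (s ^ 6 / 10 ^ 5) := by
          rw [abs_mul, hφ2, abs_of_pos (by linarith : 0 < 2 + γ)]
          exact mul_le_mul (by linarith) hy0 (abs_nonneg _) (by norm_num)
        have f1 : |φ * e1| ≤ 2 * (s ^ 6 / 10 ^ 5) := by
          rw [abs_mul, abs_of_pos hφ0]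
          exact mul_le_mul (by linarith) hy1 (abs_nonneg _) (by norm_num)
        have f0' := abs_le.1 f0
        have f1' := abs_le.1 f1
        rw [abs_le]
        constructor <;> linarith
      have h5 : 1221 / 10000 * (g ^ 2 * s ^ 4) ≤ 4 / 100 * (g ^ 2 * s ^ 4) * (5 * γ) := by
        have h6 : 0 ≤ g ^ 2 * s ^ 4 := by positivity
        have h7 : (g ^ 2 * s ^ 4) * (1221 / 10000) ≤ (g ^ 2 * s ^ 4) * (4 / 100 * (5 * γ)) :=
          mul_le_mul_of_nonneg_left (by linarith) h6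
        linarith
      exact h4.trans h5
    have h4 : |(b ^ 2 - 5 * p ^ 2 * g ^ 2) / 10| ≤
        5 * p ^ 2 * g ^ 2 * (s ^ 4 * (2 * c + 1 / 1000)) / 10 := by
      rw [abs_div, abs_of_pos (by norm_num : (0:ℝ) < 10)]
      exact div_le_div_of_nonneg_right hb2 (by norm_num)
    have h5 := abs_add_le ((b ^ 2 - 5 * p ^ 2 * g ^ 2) / 10) ((φ ^ 2 * e0 + φ * e1 - η - e2) / (5 * γ))
    have h6 : 4 / 100 * (g ^ 2 * s ^ 4) ≤ (p ^ 2 / 2) * (9 / 1000) * (g ^ 2 * s ^ 4) := by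
      apply mul_le_mul_of_nonneg_right _ (by positivity)
      linarith
    have h7 : g ^ 2 * (p ^ 2 / 2) * ((2 * c + 1 / 100) * s ^ 4) =
      5 * p ^ 2 * g ^ 2 * (s ^ 4 * (2 * c + 1 / 1000)) / 10 +
        (p ^ 2 / 2) * (9 / 1000) * (g ^ 2 * s ^ 4) := by ring
    rw [h7]
    linarith
  · rw [IR]
    have h3 : |a * b| ≤ 943 / 100 * s ^ 3 * (703 / 100 * (16181 / 10000 * s)) := by
      rw [abs_mul]
      exact mul_le_mul ha (by linarith) hb0 (by positivity)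
    have h4 : 943 / 100 * s ^ 3 * (703 / 100 * (16181 / 10000 * s)) =
      943 / 100 * (703 / 100 * (16181 / 10000)) * s ^ 4 := by ring
    rw [h4] at h3
    have h5 := abs_le.1 h3
    have h6 : 0 < s ^ 4 := by positivity
    rw [abs_le]
    constructor <;> linarith
  · rw [IP]
    have h3 : |a ^ 2 / 10| ≤ 9 * s ^ 6 := by
      rw [abs_of_nonneg (by positivity), ← sq_abs a]
      have h4 : |a| ^ 2 ≤ (943 / 100 * s ^ 3) ^ 2 := pow_le_pow_left₀ ha0 ha 2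
      have h5 : (943 / 100 * s ^ 3) ^ 2 = (943 / 100) ^ 2 * s ^ 6 := by ring
      rw [h5] at h4
      linarith
    have h4 : |(η + e2 + γ * e1 - γ ^ 2 * e0) / (5 * φ)| ≤ s ^ 6 := by
      rw [abs_div, abs_of_pos (by positivity : 0 < 5 * φ), div_le_iff₀ (by positivity)]
      have f0 : |γ ^ 2 * e0| ≤ 1 * (s ^ 6 / 10 ^ 5) := by
        rw [abs_mul, hγ, abs_of_pos (by linarith : 0 < 1 - γ)]
        exact mul_le_mul (by linarith) hy0 (abs_nonneg _) (by norm_num)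
      have f1 : |γ * e1| ≤ 1 * (s ^ 6 / 10 ^ 5) := by
        rw [abs_mul, abs_of_pos hγ0]
        exact mul_le_mul (by linarith) hy1 (abs_nonneg _) (by norm_num)
      have f0' := abs_le.1 f0
      have f1' := abs_le.1 f1
      have h5 : s ^ 6 * 1 ≤ s ^ 6 * (5 * φ) := mul_le_mul_of_nonneg_left (by linarith) hs60.le
      rw [abs_le]
      constructor <;> linarith
    have h5 := abs_add_le (a ^ 2 / 10) ((η + e2 + γ * e1 - γ ^ 2 * e0) / (5 * φ))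
    linarith
  · intro ha1
    rw [IR, ha1]
    rw [abs_le]
    constructor <;> linarith

lemma d8_sgn (p : ℤ) : ((-1 : ℝ)) ^ p.natAbs * (-1 : ℝ) ^ p = 1 := by
  rcases Int.even_or_odd p with h | h
  · rw [h.neg_one_zpow, (Int.natAbs_even.2 h).neg_one_pow]; norm_num
  · rw [h.neg_one_zpow, (Int.natAbs_odd.2 h).neg_one_pow]; norm_num

lemma d8_Th (l E : ℝ) (a b : ℤ) (j : ℕ) :
    Th l j E = Real.pi * rr l a b j E + (pp a b j : ℝ) * Real.pi := by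
  unfold rr
  have := Real.pi_ne_zero
  field_simp
  ring

lemma d8_clamp (x : ℝ) (h : |clamp x| < 1) : clamp x = x := by
  unfold clamp at *
  obtain ⟨h1, h2⟩ := abs_lt.1 h
  rcases le_total 1 x with h3 | h3
  · rw [min_eq_left h3] at h2
    rw [max_eq_right (by norm_num : (-1 : ℝ) ≤ 1)] at h2
    exact absurd h2 (lt_irrefl _)
  · rw [min_eq_right h3] at h1 ⊢
    rcases le_total x (-1) with h4 | h4
    · rw [max_eq_left h4] at h1
      exact absurd h1 (lt_irrefl _)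
    · exact max_eq_right h4

lemma d8_sinTh (l E : ℝ) (a b : ℤ) (j : ℕ) :
    |Real.sin (Th l j E)| = |Real.sin (Real.pi * rr l a b j E)| := by
  rw [d8_Th l E a b j, Real.sin_add_int_mul_pi, abs_mul, abs_zpow, abs_neg, abs_one, one_zpow,
    one_mul]

lemma d8_tt (l E : ℝ) (a b : ℤ) (j : ℕ) (hc : Real.cos (Th l j E) = clamp (X l j E))
    (hs : 0 < |Real.sin (Th l j E)|) :
    tt l a b j E = 1 - Real.cos (Real.pi * rr l a b j E) := by
  have h1 : |Real.cos (Th l j E)| < 1 := by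
    have h2 := Real.sin_sq_add_cos_sq (Th l j E)
    have h3 : 0 < Real.sin (Th l j E) ^ 2 := by rw [← sq_abs]; positivity
    rw [abs_lt]
    constructor <;> nlinarith
  have h4 : clamp (X l j E) = X l j E := d8_clamp _ (by rw [← hc]; exact h1)
  rw [h4] at hc
  unfold tt
  rw [← hc, d8_Th l E a b j, Real.cos_add_int_mul_pi, ← mul_assoc, d8_sgn, one_mul]

lemma d8_sin (R s c : ℝ) (h : |R| ≤ 1) (hc : c * s ≤ |R|) :
    6366 / 10000 * (c * s) ≤ |Real.sin R| := by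
  have h1 := Real.pi_gt_d4
  have h2 := Real.pi_lt_d4
  rw [Real.abs_sin_eq_sin_abs_of_abs_le_pi (by linarith)]
  have h3 := Real.mul_le_sin (abs_nonneg R) (by linarith)
  have h4 : (6366 / 10000 : ℝ) ≤ 2 / Real.pi := by
    rw [le_div_iff₀ Real.pi_pos]; linarith
  have h5 : (6366 / 10000 : ℝ) * |R| ≤ 2 / Real.pi * |R| :=
    mul_le_mul_of_nonneg_right h4 (abs_nonneg _)
  linarith

lemma d8_B (q b G dl c s4 : ℝ) (hq : q ^ 2 = 5) (hq0 : 0 < q) (hG : 0 < G)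
    (hd : |dl| ≤ c * q * |b| * s4) (hc : 0 ≤ c) (hc' : c ≤ 10) (hs : 0 ≤ s4)
    (hs' : s4 ≤ 1 / 10 ^ 10) :
    |(G * (q * b + dl)) ^ 2 - 5 * (|b| * G) ^ 2| ≤
      5 * (|b| * G) ^ 2 * (s4 * (2 * c + 1 / 1000)) ∧
    |G * (q * b + dl)| ≤ q * (|b| * G) * (1 + 1 / 10000) ∧
    q * (|b| * G) * (1 - 1 / 10000) ≤ |G * (q * b + dl)| := by
  have hb0 : 0 ≤ |b| := abs_nonneg b
  have hd0 : 0 ≤ |dl| := abs_nonneg dl
  have hcs : c * s4 ≤ 1 / 10000 := by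
    have : c * s4 ≤ 10 * (1 / 10 ^ 10) := mul_le_mul hc' hs' hs (by norm_num)
    refine this.trans (by norm_num)
  have hcs2 : c ^ 2 * s4 ≤ 1 / 1000 := by
    have : c ^ 2 * s4 ≤ 10 ^ 2 * (1 / 10 ^ 10) :=
      mul_le_mul (pow_le_pow_left₀ hc hc' 2) hs' hs (by norm_num)
    refine this.trans (by norm_num)
  have hd2 : |dl| ≤ q * |b| * (1 / 10000) := by
    refine hd.trans ?_
    have : c * q * |b| * s4 = (q * |b|) * (c * s4) := by ring
    rw [this]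
    exact mul_le_mul_of_nonneg_left hcs (by positivity)
  refine ⟨?_, ?_, ?_⟩
  · have e1 : (G * (q * b + dl)) ^ 2 - 5 * (|b| * G) ^ 2 = G ^ 2 * (2 * q * (b * dl) + dl ^ 2) := by
      rw [mul_pow |b| G, sq_abs]
      linear_combination (G ^ 2 * b ^ 2) * hq
    rw [e1, abs_mul, abs_of_pos (by positivity : 0 < G ^ 2)]
    have e2 : 5 * (|b| * G) ^ 2 * (s4 * (2 * c + 1 / 1000)) =
        G ^ 2 * (5 * |b| ^ 2 * (s4 * (2 * c + 1 / 1000))) := by ring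
    rw [e2]
    apply mul_le_mul_of_nonneg_left _ (by positivity)
    have e3 := abs_add_le (2 * q * (b * dl)) (dl ^ 2)
    have e4 : |2 * q * (b * dl)| = 2 * q * (|b| * |dl|) := by
      rw [abs_mul, abs_mul b dl, abs_of_pos (by positivity : 0 < 2 * q)]
    have e5 : |dl ^ 2| = |dl| * |dl| := by rw [abs_pow, sq]
    have e6 : |b| * |dl| ≤ |b| * (c * q * |b| * s4) := mul_le_mul_of_nonneg_left hd hb0
    have e7 : 2 * q * (|b| * |dl|) ≤ 2 * q * (|b| * (c * q * |b| * s4)) :=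
      mul_le_mul_of_nonneg_left e6 (by positivity)
    have e8 : 2 * q * (|b| * (c * q * |b| * s4)) = 5 * |b| ^ 2 * (s4 * (2 * c)) := by
      linear_combination (2 * c * |b| ^ 2 * s4) * hq
    have e9 : |dl| * |dl| ≤ (c * q * |b| * s4) * (c * q * |b| * s4) :=
      mul_le_mul hd hd hd0 (by positivity)
    have e10 : (c * q * |b| * s4) * (c * q * |b| * s4) = 5 * |b| ^ 2 * (s4 * (c ^ 2 * s4)) := by
      linear_combination (c ^ 2 * |b| ^ 2 * s4 ^ 2) * hq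
    have e11 : 5 * |b| ^ 2 * (s4 * (c ^ 2 * s4)) ≤ 5 * |b| ^ 2 * (s4 * (1 / 1000)) := by
      apply mul_le_mul_of_nonneg_left _ (by positivity)
      exact mul_le_mul_of_nonneg_left hcs2 hs
    have e12 : 5 * |b| ^ 2 * (s4 * (2 * c + 1 / 1000)) =
      5 * |b| ^ 2 * (s4 * (2 * c)) + 5 * |b| ^ 2 * (s4 * (1 / 1000)) := by ring
    rw [e12]
    linarith
  · rw [abs_mul, abs_of_pos hG]
    have e1 := abs_add_le (q * b) dl
    rw [abs_mul, abs_of_pos hq0] at e1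
    have e2 : |q * b + dl| ≤ q * |b| * (1 + 1 / 10000) := by linarith
    have e3 := mul_le_mul_of_nonneg_left e2 hG.le
    refine e3.trans (le_of_eq ?_)
    ring
  · rw [abs_mul, abs_of_pos hG]
    have e1 := abs_sub_abs_le_abs_sub (q * b) (-dl)
    rw [abs_mul, abs_of_pos hq0, abs_neg, sub_neg_eq_add] at e1
    have e2 : q * |b| * (1 - 1 / 10000) ≤ |q * b + dl| := by linarith
    have e3 := mul_le_mul_of_nonneg_left e2 hG.le
    refine (le_of_eq ?_).trans e3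
    ring

lemma d8_eps (h5 : ST_D5) (R s : ℝ) (hs : 0 < s) (hs' : s ≤ 1 / 10 ^ 5) (hR : |R| ≤ 6 * s) :
    |Pol (1 - Real.cos R) - R ^ 2 / 2| ≤ s ^ 6 / 10 ^ 5 := by
  have h1 : |R| ≤ 1 := hR.trans (by
    have : (6 : ℝ) * s ≤ 6 * (1 / 10 ^ 5) := by linarith
    refine this.trans (by norm_num))
  have h2 := h5.1 R h1
  refine h2.trans ?_
  have h3 : R ^ 8 ≤ (6 * s) ^ 8 := by
    have : R ^ 8 = |R| ^ 8 := by rw [← abs_pow, abs_of_nonneg (by positivity)]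
    rw [this]
    exact pow_le_pow_left₀ (abs_nonneg _) hR 8
  have h4 : (6 * s) ^ 8 = 1679616 * (s ^ 2 * s ^ 6) := by ring
  have h5' : s ^ 2 ≤ 1 / 10 ^ 10 := by
    have : s ^ 2 ≤ (1 / 10 ^ 5) ^ 2 := pow_le_pow_left₀ hs.le hs' 2
    refine this.trans (by norm_num)
  have h6 : s ^ 2 * s ^ 6 ≤ 1 / 10 ^ 10 * s ^ 6 := mul_le_mul_of_nonneg_right h5' (by positivity)
  have h7 : 0 < s ^ 6 := by positivity
  linarith

theorem st_D8 (h1 : ST_D1) (h2 : ST_D2) (h3 : ST_D3) (h5 : ST_D5) (h6 : ST_T6) : ST_D8 := by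
  obtain ⟨l1, hl1, H3⟩ := h3
  refine ⟨min l1 (1 / 10 ^ 20), lt_min hl1 (by norm_num), ?_⟩
  intro l E a b n hl0 hl hb hg1 hg2 hA
  have hll1 : |l| ≤ l1 := hl.trans (min_le_left _ _)
  have hll2 : |l| ≤ 1 / 10 ^ 20 := hl.trans (min_le_right _ _)
  have hll3 : |l| ≤ 1 / 100 := hll2.trans (by norm_num)
  obtain ⟨s, hsd⟩ : ∃ s, s = Real.sqrt (Real.sqrt |l|) := ⟨_, rfl⟩
  have hs2 : Real.sqrt |l| = s ^ 2 := by rw [hsd, Real.sq_sqrt (Real.sqrt_nonneg _)]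
  have hs4 : |l| = s ^ 4 := by
    have : s ^ 4 = (s ^ 2) ^ 2 := by ring
    rw [this, ← hs2, Real.sq_sqrt (abs_nonneg _)]
  have hs0 : 0 < s := by rw [hsd]; exact Real.sqrt_pos.2 (Real.sqrt_pos.2 hl0)
  have hs5 : s ≤ 1 / 10 ^ 5 := by
    by_contra hcon
    push Not at hcon
    have h7 : (1 / 10 ^ 5 : ℝ) ^ 4 < s ^ 4 := pow_lt_pow_left₀ hcon (by norm_num) (by norm_num)
    rw [← hs4] at h7
    have h8 : (1 / 10 ^ 5 : ℝ) ^ 4 = 1 / 10 ^ 20 := by norm_num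
    rw [h8] at h7
    exact absurd h7 (not_lt.2 hll2)
  have hl8 : l ^ 2 = s ^ 8 := by
    rw [← sq_abs, hs4]; ring
  have HD3 := H3 l E a b n hl0 hll1 hb hg1
  rw [← hsd] at hg1 hg2 hA
  rw [hs2] at hA HD3
  rw [hs2, hs4]
  -- notation
  have hγ := d8_gg
  have hφ := d8_phi
  have hq := d8_q
  have hγ1 := d8_glo
  have hγ2 := d8_ghi
  have hq1 := d8_qlo
  have hq2 := d8_qhi
  have hqq : Real.sqrt 5 ^ 2 = 5 := Real.sq_sqrt (by norm_num)
  have hq0 : 0 < Real.sqrt 5 := by linarith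
  have hγ0 : 0 < gam := by linarith
  obtain ⟨d1, d2, d3, d4, d5⟩ := h1 l E a b n
  obtain ⟨-, -, -, e4, -⟩ := h1 l E a b (n + 1)
  have hA3 : |aa l a b n E| ≤ 6 / 10 * s ^ 2 := by
    refine hA.trans ?_
    have h7 : s ^ 2 * s ≤ s ^ 2 * (1 / 10 ^ 5) := mul_le_mul_of_nonneg_left hs5 (by positivity)
    have h8 : 0 < s ^ 2 := by positivity
    linarith
  obtain ⟨HW1, HW2⟩ := HD3 hA3 n le_rfl
  rw [hs4] at HW1 HW2
  obtain ⟨A, hAd⟩ : ∃ A, A = aa l a b n E := ⟨_, rfl⟩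
  obtain ⟨B, hBd⟩ : ∃ B, B = bb l a b n E := ⟨_, rfl⟩
  obtain ⟨W, hWd⟩ : ∃ W, W = WS l n E := ⟨_, rfl⟩
  obtain ⟨Dn, hDd⟩ : ∃ Dn, Dn = D l n E := ⟨_, rfl⟩
  obtain ⟨G, hGd⟩ : ∃ G, G = gam ^ n := ⟨_, rfl⟩
  obtain ⟨bt, hbt⟩ : ∃ bt, bt = |(b : ℝ)| := ⟨_, rfl⟩
  rw [← hAd] at d1 d3 d4 d5 hA
  rw [← hBd] at d2 d3 d4 d5
  rw [← hWd] at d5 HW1 HW2
  rw [← hDd] at d1 d2
  rw [← hGd] at hg1 hg2
  rw [← hbt] at hg1 hg2 HW1 HW2
  rw [← hAd, ← hGd, ← hbt]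
  have hG0 : 0 < G := by rw [hGd]; positivity
  have hbt1 : 1 ≤ bt := by
    rw [hbt, ← Int.cast_abs]
    exact_mod_cast Int.one_le_abs hb
  have hbt10 : bt ≤ 10 ∨ 11 ≤ bt := by
    rw [hbt, ← Int.cast_abs]
    rcases le_or_gt |b| 10 with h | h
    · left; exact_mod_cast h
    · right; exact_mod_cast h
  -- delta
  obtain ⟨dl, hdl⟩ : ∃ dl, dl = G * A - W := ⟨_, rfl⟩
  have hBG : |B| = |G * (Real.sqrt 5 * b + dl)| ∧ B ^ 2 = (G * (Real.sqrt 5 * b + dl)) ^ 2 := by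
    have h7 : B = (-1) ^ n * (G * (Real.sqrt 5 * b + dl)) := by
      rw [d5, hdl, hGd, neg_pow]; ring
    constructor
    · rw [h7, abs_mul, abs_pow, abs_neg, abs_one, one_pow, one_mul]
    · rw [h7, mul_pow, ← pow_mul, mul_comm n 2, pow_mul]; norm_num
  have hGA : |G * A| ≤ G * (3 * (s ^ 2 * s)) := by
    rw [abs_mul, abs_of_pos hG0]
    exact mul_le_mul_of_nonneg_left hA hG0.le
  have hbG : bt * G ≤ 16181 / 10000 * s := by
    refine hg2.le.trans ?_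
    apply mul_le_mul_of_nonneg_right _ hs0.le
    linarith
  have hdl1 : |dl| ≤ 902 / 100 * Real.sqrt 5 * |(b : ℝ)| * s ^ 4 := by
    rw [← hbt]
    have h7 : |dl| ≤ |G * A| + |W| := by rw [hdl]; exact abs_sub _ _
    have h8 : 0 < s ^ 4 := by positivity
    rcases hbt10 with h | h
    · have h9 := HW2 h
      have h10 : G ≤ 16181 / 10000 * s := by nlinarith
      have h11 : G * (3 * (s ^ 2 * s)) ≤ (16181 / 10000 * s) * (3 * (s ^ 2 * s)) :=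
        mul_le_mul_of_nonneg_right h10 (by positivity)
      have h12 : (16181 / 10000 * s) * (3 * (s ^ 2 * s)) = 48543 / 10000 * s ^ 4 := by ring
      have h13 : 2236 / 1000 * 1 ≤ Real.sqrt 5 * bt :=
        mul_le_mul hq1.le hbt1 (by norm_num) hq0.le
      have h14 : 2236 / 1000 * s ^ 4 ≤ (Real.sqrt 5 * bt) * s ^ 4 :=
        mul_le_mul_of_nonneg_right (by linarith) h8.le
      linarith
    · have h10 : G * 11 ≤ 16181 / 10000 * s := by nlinarith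
      have h11 : G * (3 * (s ^ 2 * s)) ≤ (16181 / 110000 * s) * (3 * (s ^ 2 * s)) :=
        mul_le_mul_of_nonneg_right (by linarith) (by positivity)
      have h12 : (16181 / 110000 * s) * (3 * (s ^ 2 * s)) = 48543 / 110000 * s ^ 4 := by ring
      have h13 : 2236 / 1000 * 11 ≤ Real.sqrt 5 * bt :=
        mul_le_mul hq1.le h (by norm_num) hq0.le
      have h14 : 2236 / 1000 * 11 * s ^ 4 ≤ (Real.sqrt 5 * bt) * s ^ 4 :=
        mul_le_mul_of_nonneg_right (by linarith) h8.le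
      linarith
  have hdl2 : A = 0 → |dl| ≤ 9 * Real.sqrt 5 * |(b : ℝ)| * s ^ 4 := by
    intro h7
    rw [← hbt, hdl, h7, mul_zero, zero_sub, abs_neg]
    exact HW1
  -- pi
  have hp1 := Real.pi_gt_d4
  have hp2 := Real.pi_lt_d4
  have hp0 := Real.pi_pos
  have hpp : (986 / 100 : ℝ) ≤ Real.pi ^ 2 := by nlinarith
  have hs4' : s ^ 4 ≤ 1 / 10 ^ 10 := by
    rw [← hs4]; refine hll2.trans (by norm_num)
  have hs40 : 0 ≤ s ^ 4 := by positivity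
  obtain ⟨b1, b2, b3⟩ := d8_B (Real.sqrt 5) b G dl (902 / 100) (s ^ 4) hqq hq0 hG0 hdl1
    (by norm_num) (by norm_num) hs40 hs4'
  rw [← hBG.2] at b1
  rw [← hBG.1] at b2 b3
  rw [← hbt] at b1 b2 b3
  have hg0 : 0 < bt * G := by positivity
  have ha' : |Real.pi * A| ≤ 943 / 100 * s ^ 3 := by
    rw [abs_mul, abs_of_pos hp0]
    have h7 : Real.pi * |A| ≤ 31416 / 10000 * (3 * (s ^ 2 * s)) :=
      mul_le_mul (by linarith) hA (abs_nonneg _) (by norm_num)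
    have h8 : 0 < s ^ 3 := by positivity
    have h9 : 31416 / 10000 * (3 * (s ^ 2 * s)) = 94248 / 10000 * s ^ 3 := by ring
    linarith
  have hb1' : 702 / 100 * (bt * G) ≤ |Real.pi * B| := by
    rw [abs_mul, abs_of_pos hp0]
    have h7 : 2236 / 1000 * (bt * G) * (1 - 1 / 10000) ≤ |B| := by
      refine le_trans ?_ b3
      apply mul_le_mul_of_nonneg_right _ (by norm_num)
      exact mul_le_mul_of_nonneg_right hq1.le hg0.le
    have h8 : 31415 / 10000 * (2236 / 1000 * (bt * G) * (1 - 1 / 10000)) ≤ Real.pi * |B| :=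
      mul_le_mul (by linarith) h7 (by positivity) hp0.le
    linarith
  have hb2' : |Real.pi * B| ≤ 703 / 100 * (bt * G) := by
    rw [abs_mul, abs_of_pos hp0]
    have h7 : |B| ≤ 22362 / 10000 * (bt * G) * (1 + 1 / 10000) := by
      refine le_trans b2 ?_
      apply mul_le_mul_of_nonneg_right _ (by norm_num)
      exact mul_le_mul_of_nonneg_right hq2.le hg0.le
    have h8 : Real.pi * |B| ≤ 31416 / 10000 * (22362 / 10000 * (bt * G) * (1 + 1 / 10000)) :=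
      mul_le_mul (by linarith) h7 (abs_nonneg _) (by norm_num)
    linarith
  -- the phases
  obtain ⟨R0, hR0⟩ : ∃ R, R = Real.pi * rr l a b n E := ⟨_, rfl⟩
  obtain ⟨R1, hR1⟩ : ∃ R, R = Real.pi * rr l a b (n + 1) E := ⟨_, rfl⟩
  obtain ⟨R2, hR2⟩ : ∃ R, R = Real.pi * rr l a b (n + 2) E := ⟨_, rfl⟩
  have E0 : Real.sqrt 5 * R0 = Real.pi * A - Real.pi * B := by
    rw [hR0]; linear_combination Real.pi * d3
  have E1 : Real.sqrt 5 * R1 = phi * (Real.pi * A) + gam * (Real.pi * B) := by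
    rw [hR1]; linear_combination Real.pi * d4
  have E2 : Real.sqrt 5 * R2 = phi ^ 2 * (Real.pi * A) - gam ^ 2 * (Real.pi * B) +
      Real.sqrt 5 * Dn := by
    rw [d1, d2] at e4
    have h7 : n + 2 = n + 1 + 1 := rfl
    rw [hR2, h7]
    have h8 : Real.pi * (Real.sqrt 5 * rr l a b (n + 1 + 1) E) =
        Real.pi * (phi * (phi * A + Dn / Real.pi) + gam * (-gam * B + Dn / Real.pi)) := by rw [e4]
    have h9 : Real.pi * (phi * (phi * A + Dn / Real.pi) + gam * (-gam * B + Dn / Real.pi)) =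
        phi ^ 2 * (Real.pi * A) - gam ^ 2 * (Real.pi * B) +
          (phi + gam) * (Real.pi * (Dn / Real.pi)) := by ring
    rw [h9, mul_div_cancel₀ _ hp0.ne'] at h8
    have h10 : phi + gam = Real.sqrt 5 := by rw [hφ, hq]; ring
    rw [h10] at h8
    rw [← h8]; ring
  obtain ⟨-, -, HT⟩ := h6 l hl0 hll3 n
  obtain ⟨-, hDT, -⟩ := HT E
  rw [hs2, ← hDd] at hDT
  obtain ⟨⟨L0, L1, L2⟩, U0, U1, U2⟩ := d8_A gam phi (Real.sqrt 5) (Real.pi * A) (Real.pi * B)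
    (bt * G) s Dn R0 R1 R2 hγ hφ hq hγ1 hγ2 hs0 hs5 hg1 hg2 ha' hb1' hb2' E0 E1 E2 hDT
  have h6s : 6 * s ≤ 1 := by
    have : (6 : ℝ) * s ≤ 6 * (1 / 10 ^ 5) := by linarith
    refine this.trans (by norm_num)
  have S0 := d8_sin R0 s 3 (U0.trans h6s) L0
  have S1 := d8_sin R1 s (19 / 10) (U1.trans h6s) L1
  have S2 := d8_sin R2 s (115 / 100) (U2.trans h6s) L2
  rw [hR0, ← d8_sinTh] at S0
  rw [hR1, ← d8_sinTh] at S1
  rw [hR2, ← d8_sinTh] at S2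
  have hDb : |Dn| ≤ s ^ 5 / 10 := by
    have h7 := (h2 l hl0 hll3 n E n (n + 1) (n + 2) rfl).2
    rw [hs2, hl8, ← hDd] at h7
    refine d8_D Dn s |Real.sin (Th l n E)| |Real.sin (Th l (n + 1) E)| |Real.sin (Th l (n + 2) E)|
      hs0 hs5 (by linarith) (by linarith) (by linarith) h7
  have T0 : yy l a b n E = Pol (1 - Real.cos R0) := by
    unfold yy
    rw [d8_tt l E a b n ((h6 l hl0 hll3 n).2.2 E).2.2 (by linarith), hR0]
  have T1 : yy l a b (n + 1) E = Pol (1 - Real.cos R1) := by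
    unfold yy
    rw [d8_tt l E a b (n + 1) ((h6 l hl0 hll3 (n + 1)).2.2 E).2.2 (by linarith), hR1]
  have T2 : yy l a b (n + 2) E = Pol (1 - Real.cos R2) := by
    unfold yy
    rw [d8_tt l E a b (n + 2) ((h6 l hl0 hll3 (n + 2)).2.2 E).2.2 (by linarith), hR2]
  have y0 := d8_eps h5 R0 s hs0 hs5 U0
  have y1 := d8_eps h5 R1 s hs0 hs5 U1
  have y2 := d8_eps h5 R2 s hs0 hs5 U2
  rw [← T0] at y0
  rw [← T1] at y1
  rw [← T2] at y2
  have key : ∀ c : ℝ, 0 ≤ c → c ≤ 10 → |dl| ≤ c * Real.sqrt 5 * |(b : ℝ)| * s ^ 4 →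
      |mQ l a b n E - Real.pi ^ 2 / 2 * (bt * G) ^ 2| ≤
        (bt * G) ^ 2 * (Real.pi ^ 2 / 2) * ((2 * c + 1 / 100) * s ^ 4) ∧
      |mR l a b n E| ≤ 30 * s ^ 4 ∧ |mP l a b n E| ≤ 20 * s ^ 6 ∧
      (Real.pi * A = 0 → |mR l a b n E| ≤ s ^ 6 / 10) := by
    intro c hc0 hc1 hc2
    obtain ⟨c1, -, -⟩ := d8_B (Real.sqrt 5) b G dl c (s ^ 4) hqq hq0 hG0 hc2 hc0 hc1 hs40 hs4'
    rw [← hBG.2, ← hbt] at c1
    have c2 : |(Real.pi * B) ^ 2 - 5 * Real.pi ^ 2 * (bt * G) ^ 2| ≤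
        5 * Real.pi ^ 2 * (bt * G) ^ 2 * (s ^ 4 * (2 * c + 1 / 1000)) := by
      have e1 : (Real.pi * B) ^ 2 - 5 * Real.pi ^ 2 * (bt * G) ^ 2 =
        Real.pi ^ 2 * (B ^ 2 - 5 * (bt * G) ^ 2) := by ring
      rw [e1, abs_mul, abs_of_pos (by positivity : 0 < Real.pi ^ 2)]
      have e2 := mul_le_mul_of_nonneg_left c1 (by positivity : 0 ≤ Real.pi ^ 2)
      refine e2.trans (le_of_eq ?_)
      ring
    have := d8_alg gam phi (Real.sqrt 5) Real.pi (Real.pi * A) (Real.pi * B) (bt * G) s Dn R0 R1 R2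
      (yy l a b n E) (yy l a b (n + 1) E) (yy l a b (n + 2) E) c hγ hφ hq hγ1 hγ2 hs0 hs5 hg1 hg2
      ha' hb2' hpp c2 E0 E1 E2 hDb y0 y1 y2
    exact this
  have hg4 : 0 ≤ (bt * G) ^ 2 * (Real.pi ^ 2 / 2) := by positivity
  obtain ⟨k1, k2, k3, -⟩ := key (902 / 100) (by norm_num) (by norm_num) hdl1
  refine ⟨?_, k2, ?_, ?_, ?_⟩
  · refine k1.trans ?_
    have e1 : (2 * (902 / 100) + 1 / 100) * s ^ 4 ≤ 194 / 10 * s ^ 4 :=
      mul_le_mul_of_nonneg_right (by norm_num) hs40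
    have e2 := mul_le_mul_of_nonneg_left e1 hg4
    refine e2.trans (le_of_eq ?_)
    ring
  · refine k3.trans (le_of_eq ?_)
    ring
  · intro hA0
    obtain ⟨m1, -, -, m4⟩ := key 9 (by norm_num) (by norm_num) (hdl2 hA0)
    constructor
    · refine m1.trans ?_
      have e1 : (2 * 9 + 1 / 100) * s ^ 4 ≤ 181 / 10 * s ^ 4 :=
        mul_le_mul_of_nonneg_right (by norm_num) hs40
      have e2 := mul_le_mul_of_nonneg_left e1 hg4
      refine e2.trans (le_of_eq ?_)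
      ring
    · have hm := m4 (by rw [hA0, mul_zero])
      have hs6 : 0 < s ^ 6 := by positivity
      have e3 : s ^ 4 * s ^ 2 = s ^ 6 := by ring
      linarith
  · intro j hj1 hj2
    have hlt : ∀ R r : ℝ, R = Real.pi * r → |R| ≤ 6 * s → |r| < 1 := by
      intro R r hRr hRs
      rw [hRr, abs_mul, abs_of_pos hp0] at hRs
      have h7 : 3 * |r| ≤ Real.pi * |r| := mul_le_mul_of_nonneg_right (by linarith) (abs_nonneg _)
      linarith
    have : j = n ∨ j = n + 1 ∨ j = n + 2 := by omega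
    rcases this with h | h | h
    · rw [h]; exact hlt R0 _ hR0 U0
    · rw [h]; exact hlt R1 _ hR1 U1
    · rw [h]; exact hlt R2 _ hR2 U2

end Pool.Agent.Helper36.CV
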