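import Pool.Agent.Helper36.CV.StmtsO

set_option autoImplicit false

namespace Pool.Agent.Helper36.CV

open Filter Topology Pointwise

/-- the left end -/
theorem f1_left (S : Set ℝ) (hS : IsCompact S) (hL : LE S) (a b : ℝ) (hab : a < b)
    (hI : Set.Icc a b ⊆ S) (hmax : ∀ y, y < a → ¬ Set.Icc y a ⊆ S) (ε : ℝ) (hε : 0 < ε) :
    ∃ d ∈ S, (∀ z ∈ S, z ≠ d → ¬ Set.uIcc d z ⊆ S) ∧ |d - a| < ε := by
  have haS : a ∈ S := hI ⟨le_refl a, hab.le⟩
  -- a point outside `S` close to `a` on the left
  obtain ⟨y, hy1, hy2, hyS⟩ : ∃ y, a - ε < y ∧ y < a ∧ y ∉ S := by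
    by_contra hcon
    push Not at hcon
    apply hmax (a - ε / 2) (by linarith)
    intro z hz
    rcases hz.2.lt_or_eq with h | h
    · exact hcon z (by linarith [hz.1]) h
    · rw [h]; exact haS
  -- a point of `S` between `y` and `a`
  obtain ⟨w, hw1, hw2, hwS⟩ : ∃ w, y < w ∧ w < a ∧ w ∈ S := by
    by_contra hcon
    push Not at hcon
    obtain ⟨u, hu, huS⟩ := hL a haS ⟨a - y, by linarith, fun z hz => hcon z (by linarith [hz.1]) hz.2⟩
      (b - a) (by linarith)
    exact huS (hI ⟨hu.1.le, by linarith [hu.2]⟩)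
  -- the first point of `S` after `y`
  have hK : IsCompact (S ∩ Set.Icc y a) := hS.inter_right isClosed_Icc
  have hne : (S ∩ Set.Icc y a).Nonempty := ⟨w, hwS, hw1.le, hw2.le⟩
  obtain ⟨hdS, hd1, hd2⟩ := hK.sInf_mem hne
  set d := sInf (S ∩ Set.Icc y a) with hd
  have hlow : ∀ z ∈ S, y ≤ z → z ≤ a → d ≤ z := fun z hz h1 h2 =>
    csInf_le hK.bddBelow ⟨hz, h1, h2⟩
  have hyd : y < d := lt_of_le_of_ne hd1 (fun h => hyS (h ▸ hdS))
  have hda : d < a := lt_of_le_of_lt (hlow w hwS hw1.le hw2.le) hw2
  have hgap : ∀ z, y < z → z < d → z ∉ S := fun z h1 h2 hz =>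
    absurd (hlow z hz h1.le (by linarith)) (not_le.2 h2)
  refine ⟨d, hdS, ?_, ?_⟩
  · intro z hz hzd hsub
    rcases lt_or_gt_of_ne hzd with h | h
    · -- `z < d`
      have h1 : (max y z + d) / 2 ∈ S := by
        apply hsub
        rw [Set.uIcc_of_ge h.le]
        constructor
        · have := le_max_right y z
          linarith
        · have := max_lt hyd h
          linarith
      have h2 : max y z < d := max_lt hyd h
      exact hgap _ (by linarith [le_max_left y z]) (by linarith) h1
    · obtain ⟨u, hu, huS⟩ := hL d hdS ⟨d - y, by linarith, fun v hv =>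
        hgap v (by linarith [hv.1]) hv.2⟩ (z - d) (by linarith)
      apply huS
      apply hsub
      rw [Set.uIcc_of_le h.le]
      exact ⟨hu.1.le, by linarith [hu.2]⟩
  · rw [abs_lt]
    constructor <;> linarith

/-- the right end -/
theorem f1_right (S : Set ℝ) (hS : IsCompact S) (hR : RE S) (a b : ℝ) (hab : a < b)
    (hI : Set.Icc a b ⊆ S) (hmax : ∀ y, b < y → ¬ Set.Icc b y ⊆ S) (ε : ℝ) (hε : 0 < ε) :
    ∃ d ∈ S, (∀ z ∈ S, z ≠ d → ¬ Set.uIcc d z ⊆ S) ∧ |d - b| < ε := by
  have hLn : LE (-S) := by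
    intro e he hd η hη
    obtain ⟨δ, hδ, hgap⟩ := hd
    obtain ⟨y, hy, hyS⟩ := hR (-e) he ⟨δ, hδ, fun y hy hyS =>
      hgap (-y) ⟨by linarith [hy.2], by linarith [hy.1]⟩ (by rw [Set.mem_neg, neg_neg]; exact hyS)⟩ η hη
    refine ⟨-y, ⟨by linarith [hy.2], by linarith [hy.1]⟩, ?_⟩
    rw [Set.mem_neg, neg_neg]
    exact hyS
  obtain ⟨d, hdS, hd, hdb⟩ := f1_left (-S) hS.neg hLn (-b) (-a) (by linarith)
    (by
      intro z hz
      exact hI ⟨by linarith [hz.2], by linarith [hz.1]⟩)
    (by
      intro y hy hsub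
      apply hmax (-y) (by linarith)
      intro z hz
      have h1 : -z ∈ -S := hsub ⟨by linarith [hz.2], by linarith [hz.1]⟩
      rwa [Set.mem_neg, neg_neg] at h1) ε hε
  refine ⟨-d, hdS, ?_, ?_⟩
  · intro z hz hzd hsub
    apply hd (-z) (by rw [Set.mem_neg, neg_neg]; exact hz) (fun h => hzd (by rw [← h, neg_neg]))
    intro v hv
    rw [Set.mem_neg]
    apply hsub
    rw [Set.mem_uIcc] at hv ⊢
    rcases hv with h | h
    · right; constructor <;> linarith [h.1, h.2]
    · left; constructor <;> linarith [h.1, h.2]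
  · have h : -d - b = -(d - -b) := by ring
    rw [h, abs_neg]
    exact hdb

/-- F1 -/
theorem st_F1 : ST_F1 := by
  intro S hne hS _ hL hR x hx hsub e he ε hε
  have hpc : IsPreconnected (connectedComponentIn S x) := isPreconnected_connectedComponentIn
  have hIS : connectedComponentIn S x ⊆ S := connectedComponentIn_subset S x
  have hxI : x ∈ connectedComponentIn S x := mem_connectedComponentIn hx
  have hcl : IsClosed (connectedComponentIn S x) :=
    isClosed_of_closure_subset (hpc.closure.subset_connectedComponentIn (subset_closure hxI)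
      (closure_minimal hIS hS.isClosed))
  have hcomp : IsCompact (connectedComponentIn S x) := hS.of_isClosed_subset hcl hIS
  have hneI : (connectedComponentIn S x).Nonempty := ⟨x, hxI⟩
  have haI := hcomp.sInf_mem hneI
  have hbI := hcomp.sSup_mem hneI
  have hIcc : Set.Icc (sInf (connectedComponentIn S x)) (sSup (connectedComponentIn S x)) ⊆
      connectedComponentIn S x := hpc.Icc_subset haI hbI
  have hmemI : ∀ z ∈ connectedComponentIn S x, sInf (connectedComponentIn S x) ≤ z ∧
      z ≤ sSup (connectedComponentIn S x) := fun z hz =>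
    ⟨csInf_le hcomp.bddBelow hz, le_csSup hcomp.bddAbove hz⟩
  have hab : sInf (connectedComponentIn S x) < sSup (connectedComponentIn S x) := by
    by_contra hcon
    apply hsub
    intro u hu v hv
    have h1 := hmemI u hu
    have h2 := hmemI v hv
    linarith [h1.1, h1.2, h2.1, h2.2, not_lt.1 hcon]
  have hglue : ∀ J : Set ℝ, IsPreconnected J → J ⊆ S → ∀ z ∈ J, z ∈ connectedComponentIn S x →
      J ⊆ connectedComponentIn S x := by
    intro J hJ hJS z hzJ hzI
    have h1 := connectedComponentIn_eq hzI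
    rw [h1]
    exact hJ.subset_connectedComponentIn hzJ hJS
  have hfin : ∀ d ∈ S, (∀ z ∈ S, z ≠ d → ¬ Set.uIcc d z ⊆ S) → connectedComponentIn S d = {d} := by
    intro d hd hz
    apply Set.Subset.antisymm
    · intro z hzc
      rw [Set.mem_singleton_iff]
      by_contra hne'
      apply hz z (connectedComponentIn_subset S d hzc) hne'
      exact (isPreconnected_connectedComponentIn.ordConnected.uIcc_subset
        (mem_connectedComponentIn hd) hzc).trans (connectedComponentIn_subset S d)
    · intro z hz'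
      rw [Set.mem_singleton_iff] at hz'
      rw [hz']
      exact mem_connectedComponentIn hd
  rcases he with rfl | he
  · obtain ⟨d, hdS, hd, hda⟩ := f1_left S hS hL _ _ hab (hIcc.trans hIS)
      (by
        intro y hy hsub'
        have h1 := hglue (Set.Icc y (sInf (connectedComponentIn S x))) isPreconnected_Icc hsub' _
          ⟨hy.le, le_refl _⟩ haI
        exact absurd (hmemI y (h1 ⟨le_refl _, hy.le⟩)).1 (not_le.2 hy)) ε hε
    exact ⟨d, hdS, hfin d hdS hd, hda⟩
  · rw [Set.mem_singleton_iff] at he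
    rw [he]
    obtain ⟨d, hdS, hd, hda⟩ := f1_right S hS hR _ _ hab (hIcc.trans hIS)
      (by
        intro y hy hsub'
        have h1 := hglue (Set.Icc (sSup (connectedComponentIn S x)) y) isPreconnected_Icc hsub' _
          ⟨le_refl _, hy.le⟩ hbI
        exact absurd (hmemI y (h1 ⟨hy.le, le_refl _⟩)).2 (not_le.2 hy)) ε hε
    exact ⟨d, hdS, hfin d hdS hd, hda⟩

end Pool.Agent.Helper36.CV
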